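import Pool.Agent.H178Z.SokolovBridge

open Pool.Agent.H178Z.SokDefs

/-- The `ω`-modification of a scattered compact Hausdorff space of finite dispersion index is a
Sokolov space. -/
theorem Pool.Agent.Results.MP_1116a9_gt.ASokolov.result
    (K : Type) [TopologicalSpace K] [CompactSpace K] [T2Space K]
    (hs : Scattered K) (_hfin : ∃ n : ℕ, cbDeriv K n = ∅) :
    @IsSokolov K (omegaTop K) :=
  sokolov K hs
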